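import Pool.Agent.W830.RD.Stm

/-!
# Project RD: part PAIR
-/

set_option autoImplicit false

namespace Pool.Agent.W300.RD.Pair

open Pool.Agent.W830.RD Finset
open scoped Classical

/-- Lexicographic code of two numbers, the second being smaller than `W`. -/
def lx (W a b : ℕ) : ℕ := a * W + b

theorem lx_lt1 {W a a' b b' : ℕ} (h : a < a') (hb : b < W) : lx W a b < lx W a' b' := by
  unfold lx
  have h1 : (a + 1) * W ≤ a' * W := Nat.mul_le_mul_right W h
  have h2 : (a + 1) * W = a * W + W := by ring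
  omega

theorem lx_lt2 {W a a' b b' : ℕ} (h : a ≤ a') (hb : b < b') : lx W a b < lx W a' b' := by
  unfold lx
  have h1 : a * W ≤ a' * W := Nat.mul_le_mul_right W h
  omega

theorem lx_le {W a a' b b' : ℕ} (h : a < a' ∨ (a ≤ a' ∧ b ≤ b')) (hb : b < W) :
    lx W a b ≤ lx W a' b' := by
  rcases h with h | ⟨h1, h2⟩
  · exact (lx_lt1 h hb).le
  · unfold lx
    have h3 : a * W ≤ a' * W := Nat.mul_le_mul_right W h1
    omega

theorem lx_mod {W a b : ℕ} (hb : b < W) : lx W a b % W = b := by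
  unfold lx
  rw [Nat.mul_comm, Nat.mul_add_mod, Nat.mod_eq_of_lt hb]

variable {α : Type} [PartialOrder α]

/-- A finite order has an injective monotone numbering. -/
theorem exists_num [Fintype α] : ∃ e : α → ℕ, Function.Injective e ∧ ∀ x y, x ≤ y → e x ≤ e y := by
  let k : α → LinearExtension α := fun x => toLinearExtension x
  have hk : Function.Injective k := fun a b h => h
  refine ⟨fun y => (univ.filter (fun x => k x < k y)).card, ?_, ?_⟩
  · intro a b h
    by_contra hne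
    have hne' : k a ≠ k b := fun h' => hne (hk h')
    have key : ∀ a b : α, k a < k b →
        (univ.filter (fun x => k x < k a)).card < (univ.filter (fun x => k x < k b)).card := by
      intro a b hab
      apply Finset.card_lt_card
      refine ⟨fun x hx => ?_, fun hsub => ?_⟩
      · rw [mem_filter] at hx ⊢
        exact ⟨hx.1, hx.2.trans hab⟩
      · have : a ∈ univ.filter (fun x => k x < k b) := by
          rw [mem_filter]
          exact ⟨mem_univ _, hab⟩
        have h2 := hsub this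
        rw [mem_filter] at h2
        exact lt_irrefl _ h2.2
    rcases lt_or_gt_of_ne hne' with h1 | h1
    · exact absurd h (key a b h1).ne
    · exact absurd h (key b a h1).ne'
  · intro x y hxy
    apply Finset.card_le_card
    intro z hz
    rw [mem_filter] at hz ⊢
    exact ⟨hz.1, lt_of_lt_of_le hz.2 (toLinearExtension.monotone hxy)⟩

theorem down_lt {C : Finset α} (hC : Chn C) {t y : α} (ht : t ∈ C) (h : Inc t y) :
    (C.filter (fun c => c ≤ y)).card < (C.filter (fun c => c ≤ t)).card := by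
  apply Finset.card_lt_card
  refine ⟨fun c hc => ?_, fun hsub => ?_⟩
  · rw [mem_filter] at hc ⊢
    refine ⟨hc.1, ?_⟩
    rcases hC c hc.1 t ht with h1 | h1
    · exact h1
    · exact absurd (h1.trans hc.2) h.1
  · have h1 : t ∈ C.filter (fun c => c ≤ t) := by
      rw [mem_filter]
      exact ⟨ht, le_rfl⟩
    have h2 := hsub h1
    rw [mem_filter] at h2
    exact h.1 h2.2

theorem up_lt {C : Finset α} (hC : Chn C) {s y : α} (hs : s ∈ C) (h : Inc s y) :
    (C.filter (fun u => ¬ s ≤ u)).card < (C.filter (fun u => ¬ y ≤ u)).card := by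
  apply Finset.card_lt_card
  refine ⟨fun u hu => ?_, fun hsub => ?_⟩
  · rw [mem_filter] at hu ⊢
    refine ⟨hu.1, fun hyu => ?_⟩
    rcases hC u hu.1 s hs with h1 | h1
    · exact h.2 (hyu.trans h1)
    · exact hu.2 h1
  · have h1 : s ∈ C.filter (fun u => ¬ y ≤ u) := by
      rw [mem_filter]
      exact ⟨hs, h.2⟩
    have h2 := hsub h1
    rw [mem_filter] at h2
    exact h2.2 le_rfl

theorem down_mono (C : Finset α) {x y : α} (h : x ≤ y) :
    (C.filter (fun c => c ≤ x)).card ≤ (C.filter (fun c => c ≤ y)).card := by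
  apply Finset.card_le_card
  intro c hc
  rw [mem_filter] at hc ⊢
  exact ⟨hc.1, hc.2.trans h⟩

theorem up_mono (C : Finset α) {x y : α} (h : x ≤ y) :
    (C.filter (fun u => ¬ x ≤ u)).card ≤ (C.filter (fun u => ¬ y ≤ u)).card := by
  apply Finset.card_le_card
  intro c hc
  rw [mem_filter] at hc ⊢
  exact ⟨hc.1, fun h2 => hc.2 (h.trans h2)⟩

/-- The two extensions. -/
theorem main : S_PAIR := by
  intro α _ _ D U C C' H hsp hCD hCU hC hC' hH
  obtain ⟨e, he, hem⟩ := exists_num (α := α)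
  obtain ⟨M, hM⟩ : ∃ M : ℕ, ∀ x, e x < M :=
    ⟨(univ.sup e) + 1, fun x => Nat.lt_succ_of_le (Finset.le_sup (mem_univ x))⟩
  obtain ⟨φ, hφ⟩ : ∃ φ : α → ℕ, φ = fun y => (C.filter (fun c => c ≤ y)).card := ⟨_, rfl⟩
  obtain ⟨ψ, hψ⟩ : ∃ ψ : α → ℕ, ψ = fun y => (C'.filter (fun u => ¬ y ≤ u)).card := ⟨_, rfl⟩
  obtain ⟨CN, hCN⟩ : ∃ CN : Finset α, CN = C.filter (fun d => ∀ u ∈ C', ¬ d ≤ u) := ⟨_, rfl⟩
  obtain ⟨CZ, hCZ⟩ : ∃ CZ : Finset α, CZ = C'.filter (fun u => ∀ d ∈ C, ¬ d ≤ u) := ⟨_, rfl⟩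
  obtain ⟨φN, hφN⟩ : ∃ φN : α → ℕ, φN = fun y => (CN.filter (fun c => c ≤ y)).card := ⟨_, rfl⟩
  obtain ⟨ψZ, hψZ⟩ : ∃ ψZ : α → ℕ, ψZ = fun y => (CZ.filter (fun u => ¬ y ≤ u)).card := ⟨_, rfl⟩
  obtain ⟨K, hK⟩ : ∃ K : α → ℕ, K = fun y => φN y + ψZ y := ⟨_, rfl⟩
  obtain ⟨Top, hTop⟩ : ∃ Top : α → Prop, Top = fun y => ∃ z, z ∉ D ∧ ¬ H z ∧ z ≤ y := ⟨_, rfl⟩
  obtain ⟨W, hWdef⟩ : ∃ W : ℕ, W = C.card + C'.card + 1 := ⟨_, rfl⟩
  -- basic facts
  have mφ : ∀ x y, x ≤ y → φ x ≤ φ y := fun x y h => by rw [hφ]; exact down_mono C h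
  have mψ : ∀ x y, x ≤ y → ψ x ≤ ψ y := fun x y h => by rw [hψ]; exact up_mono C' h
  have mφN : ∀ x y, x ≤ y → φN x ≤ φN y := fun x y h => by rw [hφN]; exact down_mono CN h
  have mψZ : ∀ x y, x ≤ y → ψZ x ≤ ψZ y := fun x y h => by rw [hψZ]; exact up_mono CZ h
  have mK : ∀ x y, x ≤ y → K x ≤ K y := fun x y h => by
    rw [hK]; exact Nat.add_le_add (mφN x y h) (mψZ x y h)
  have mTop : ∀ x y, x ≤ y → Top x → Top y := by
    intro x y h
    rw [hTop]
    rintro ⟨z, h1, h2, h3⟩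
    exact ⟨z, h1, h2, h3.trans h⟩
  have bφ : ∀ x, φ x < W := fun x => by
    rw [hφ, hWdef]
    have := Finset.card_filter_le C (fun c => c ≤ x)
    show (C.filter (fun c => c ≤ x)).card < _
    omega
  have bψ : ∀ x, ψ x < W := fun x => by
    rw [hψ, hWdef]
    have := Finset.card_filter_le C' (fun u => ¬ x ≤ u)
    show (C'.filter (fun u => ¬ x ≤ u)).card < _
    omega
  have lφ : ∀ t ∈ C, ∀ y, Inc t y → φ y < φ t := fun t ht y h => by rw [hφ]; exact down_lt hC ht h
  have lψ : ∀ s ∈ C', ∀ y, Inc s y → ψ s < ψ y := fun s hs y h => by rw [hψ]; exact up_lt hC' hs h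
  have hCNC : ∀ c ∈ CN, c ∈ C ∧ ∀ u ∈ C', ¬ c ≤ u := fun c hc => by
    rw [hCN, mem_filter] at hc; exact hc
  have hCZC : ∀ u ∈ CZ, u ∈ C' ∧ ∀ d ∈ C, ¬ d ≤ u := fun c hc => by
    rw [hCZ, mem_filter] at hc; exact hc
  have chN : Chn CN := fun x hx y hy => hC x (hCNC x hx).1 y (hCNC y hy).1
  have chZ : Chn CZ := fun x hx y hy => hC' x (hCZC x hx).1 y (hCZC y hy).1
  have lφN : ∀ t ∈ CN, ∀ y, Inc t y → φN y < φN t := fun t ht y h => by
    rw [hφN]; exact down_lt chN ht h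
  have lψZ : ∀ s ∈ CZ, ∀ y, Inc s y → ψZ s < ψZ y := fun s hs y h => by
    rw [hψZ]; exact up_lt chZ hs h
  have ψZ_le : ∀ x, ψZ x ≤ CZ.card := fun x => by
    rw [hψZ]; exact Finset.card_filter_le _ _
  have ψZ_max : ∀ x, (∀ u ∈ CZ, ¬ x ≤ u) → ψZ x = CZ.card := fun x h => by
    rw [hψZ]
    show (CZ.filter (fun u => ¬ x ≤ u)).card = _
    rw [Finset.filter_true_of_mem h]
  have φN_zero : ∀ x, (∀ c ∈ CN, ¬ c ≤ x) → φN x = 0 := fun x h => by
    rw [hφN]
    show (CN.filter (fun c => c ≤ x)).card = 0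
    rw [Finset.filter_false_of_mem h, Finset.card_empty]
  have top1 : ∀ y, y ∉ U → H y → ¬ Top y := by
    intro y hyU hHy
    rw [hTop]
    rintro ⟨z, hzD, hzH, hzy⟩
    have h1 : z ∉ U := fun h => hyU (hsp.up z y hzy h)
    have h2 : y ∉ D := fun h => hzD (hsp.lo z y hzy h)
    have h3 := hsp.mid z y hzD h1 h2 hyU hzy
    exact hzH (h3 ▸ hHy)
  have top2 : ∀ y, y ∉ D → ¬ H y → Top y := by
    intro y h1 h2
    rw [hTop]
    exact ⟨y, h1, h2, le_rfl⟩
  have top3 : ∀ t, t ∈ D → ¬ Top t := by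
    intro t ht
    rw [hTop]
    rintro ⟨z, hzD, -, hzt⟩
    exact hzD (hsp.lo z t hzt ht)
  -- the first extension
  obtain ⟨f1, hf1⟩ : ∃ f1 : α → ℕ, f1 = fun y => if H y then 1 else 0 := ⟨_, rfl⟩
  obtain ⟨f2, hf2⟩ : ∃ f2 : α → ℕ, f2 = fun y => if H y then ψ y else φ y := ⟨_, rfl⟩
  obtain ⟨g1, hg1⟩ : ∃ g1 : α → ℕ, g1 = fun y => if Top y then 1 else 0 := ⟨_, rfl⟩
  obtain ⟨g2, hg2⟩ : ∃ g2 : α → ℕ, g2 = fun y => if Top y then ψ y else φ y := ⟨_, rfl⟩
  have f1t : ∀ y, H y → f1 y = 1 := fun y h => by rw [hf1]; exact if_pos h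
  have f1f : ∀ y, ¬ H y → f1 y = 0 := fun y h => by rw [hf1]; exact if_neg h
  have f2t : ∀ y, H y → f2 y = ψ y := fun y h => by rw [hf2]; exact if_pos h
  have f2f : ∀ y, ¬ H y → f2 y = φ y := fun y h => by rw [hf2]; exact if_neg h
  have g1t : ∀ y, Top y → g1 y = 1 := fun y h => by rw [hg1]; exact if_pos h
  have g1f : ∀ y, ¬ Top y → g1 y = 0 := fun y h => by rw [hg1]; exact if_neg h
  have g2t : ∀ y, Top y → g2 y = ψ y := fun y h => by rw [hg2]; exact if_pos h
  have g2f : ∀ y, ¬ Top y → g2 y = φ y := fun y h => by rw [hg2]; exact if_neg h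
  have bf2 : ∀ y, f2 y < W := fun y => by
    by_cases h : H y
    · rw [f2t y h]; exact bψ y
    · rw [f2f y h]; exact bφ y
  have bg2 : ∀ y, g2 y < W := fun y => by
    by_cases h : Top y
    · rw [g2t y h]; exact bψ y
    · rw [g2f y h]; exact bφ y
  have bg1 : ∀ y, g1 y < 2 := fun y => by
    by_cases h : Top y
    · rw [g1t y h]; norm_num
    · rw [g1f y h]; norm_num
  obtain ⟨f, hf⟩ : ∃ f : α → ℕ, f = fun y => lx M (lx W (f1 y) (f2 y)) (e y) := ⟨_, rfl⟩
  obtain ⟨g, hg⟩ : ∃ g : α → ℕ, g = fun y => lx M (lx W (lx 2 (K y) (g1 y)) (g2 y)) (e y) :=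
    ⟨_, rfl⟩
  have fA : ∀ x y, f1 x < f1 y → f x < f y := fun x y h => by
    rw [hf]; exact lx_lt1 (lx_lt1 h (bf2 x)) (hM x)
  have fB : ∀ x y, f1 x ≤ f1 y → f2 x < f2 y → f x < f y := fun x y h h' => by
    rw [hf]; exact lx_lt1 (lx_lt2 h h') (hM x)
  have gA : ∀ x y, K x < K y → g x < g y := fun x y h => by
    rw [hg]; exact lx_lt1 (lx_lt1 (lx_lt1 h (bg1 x)) (bg2 x)) (hM x)
  have gB : ∀ x y, K x ≤ K y → g1 x < g1 y → g x < g y := fun x y h h' => by
    rw [hg]; exact lx_lt1 (lx_lt1 (lx_lt2 h h') (bg2 x)) (hM x)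
  have lx2_le : ∀ x y, K x ≤ K y → g1 x ≤ g1 y → lx 2 (K x) (g1 x) ≤ lx 2 (K y) (g1 y) :=
    fun x y h h' => lx_le (Or.inr ⟨h, h'⟩) (bg1 x)
  have gC : ∀ x y, K x ≤ K y → g1 x ≤ g1 y → g2 x < g2 y → g x < g y := fun x y h h' h'' => by
    rw [hg]; exact lx_lt1 (lx_lt2 (lx2_le x y h h') h'') (hM x)
  have fmono : ∀ x y, x ≤ y → f x ≤ f y := by
    intro x y hxy
    by_cases hx : H x
    · have hy : H y := hH x y hxy hx
      rw [hf]
      refine lx_le (Or.inr ⟨lx_le (Or.inr ⟨?_, ?_⟩) (bf2 x), hem x y hxy⟩) (hM x)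
      · rw [f1t x hx, f1t y hy]
      · rw [f2t x hx, f2t y hy]; exact mψ x y hxy
    · by_cases hy : H y
      · exact (fA x y (by rw [f1f x hx, f1t y hy]; norm_num)).le
      · rw [hf]
        refine lx_le (Or.inr ⟨lx_le (Or.inr ⟨?_, ?_⟩) (bf2 x), hem x y hxy⟩) (hM x)
        · rw [f1f x hx, f1f y hy]
        · rw [f2f x hx, f2f y hy]; exact mφ x y hxy
  have gmono : ∀ x y, x ≤ y → g x ≤ g y := by
    intro x y hxy
    by_cases hx : Top x
    · have hy : Top y := mTop x y hxy hx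
      rw [hg]
      refine lx_le (Or.inr ⟨lx_le (Or.inr ⟨lx2_le x y (mK x y hxy) ?_, ?_⟩) (bg2 x),
        hem x y hxy⟩) (hM x)
      · rw [g1t x hx, g1t y hy]
      · rw [g2t x hx, g2t y hy]; exact mψ x y hxy
    · by_cases hy : Top y
      · exact (gB x y (mK x y hxy) (by rw [g1f x hx, g1t y hy]; norm_num)).le
      · rw [hg]
        refine lx_le (Or.inr ⟨lx_le (Or.inr ⟨lx2_le x y (mK x y hxy) ?_, ?_⟩) (bg2 x),
          hem x y hxy⟩) (hM x)
        · rw [g1f x hx, g1f y hy]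
        · rw [g2f x hx, g2f y hy]; exact mφ x y hxy
  have finj : Function.Injective f := by
    intro x y h
    apply he
    have h1 := congrArg (fun n => n % M) h
    rw [hf] at h1
    simp only [lx_mod (hM _)] at h1
    exact h1
  have ginj : Function.Injective g := by
    intro x y h
    apply he
    have h1 := congrArg (fun n => n % M) h
    rw [hg] at h1
    simp only [lx_mod (hM _)] at h1
    exact h1
  -- the third and the fifth clause
  have c3 : ∀ t ∈ C, (∀ u ∈ C', ¬ t ≤ u) → ∀ y, Inc t y → g y < g t := by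
    intro t ht htu y hty
    apply gA
    have h1 : t ∈ CN := by rw [hCN, mem_filter]; exact ⟨ht, htu⟩
    have h2 := lφN t h1 y hty
    have h3 : ψZ t = CZ.card := ψZ_max t fun u hu => (hCZC u hu).2 t ht
    have h4 := ψZ_le y
    rw [hK]
    show φN y + ψZ y < φN t + ψZ t
    omega
  have c5 : ∀ s ∈ C', (∀ d ∈ C, ¬ d ≤ s) → ∀ y, Inc s y → g s < g y := by
    intro s hs hds y hsy
    apply gA
    have h1 : s ∈ CZ := by rw [hCZ, mem_filter]; exact ⟨hs, hds⟩
    have h2 := lψZ s h1 y hsy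
    have h3 : φN s = 0 := φN_zero s fun c hc => (hCNC c hc).2 s hs
    rw [hK]
    show φN s + ψZ s < φN y + ψZ y
    omega
  refine ⟨f, g, finj, ginj, fmono, gmono, ?_, ?_, c3, ?_, c5⟩
  · intro x y hx hy
    exact fA y x (by rw [f1f y hy, f1t x hx]; norm_num)
  · intro t ht y hty hyU
    by_cases hy : H y
    · right
      have hty' : ¬ Top y := top1 y hyU hy
      have htt : ¬ Top t := top3 t (hCD ht)
      by_cases hN : ∀ u ∈ C', ¬ t ≤ u
      · exact c3 t ht hN y hty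
      · push Not at hN
        obtain ⟨u, hu, htu⟩ := hN
        have h1 : φN y = 0 := φN_zero y fun c hc hcy => by
          rcases hC c (hCNC c hc).1 t ht with h | h
          · exact (hCNC c hc).2 u hu (h.trans htu)
          · exact hty.1 (h.trans hcy)
        have h3 : ψZ t = CZ.card := ψZ_max t fun u hu => (hCZC u hu).2 t ht
        have h4 := ψZ_le y
        refine gC y t ?_ ?_ ?_
        · rw [hK]
          show φN y + ψZ y ≤ φN t + ψZ t
          omega
        · rw [g1f y hty', g1f t htt]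
        · rw [g2f y hty', g2f t htt]; exact lφ t ht y hty
    · left
      by_cases ht' : H t
      · exact fA y t (by rw [f1f y hy, f1t t ht']; norm_num)
      · refine fB y t ?_ ?_
        · rw [f1f y hy, f1f t ht']
        · rw [f2f y hy, f2f t ht']; exact lφ t ht y hty
  · intro s hs y hsy hyD
    by_cases hy : H y
    · left
      by_cases hs' : H s
      · refine fB s y ?_ ?_
        · rw [f1t s hs', f1t y hy]
        · rw [f2t s hs', f2t y hy]; exact lψ s hs y hsy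
      · exact fA s y (by rw [f1f s hs', f1t y hy]; norm_num)
    · right
      have hty : Top y := top2 y hyD hy
      by_cases hZ : ∀ d ∈ C, ¬ d ≤ s
      · exact c5 s hs hZ y hsy
      · push Not at hZ
        obtain ⟨d, hd, hds⟩ := hZ
        have h1 : ψZ y = CZ.card := ψZ_max y fun u hu hyu => by
          rcases hC' s hs u (hCZC u hu).1 with h | h
          · exact (hCZC u hu).2 d hd (hds.trans h)
          · exact hsy.2 (hyu.trans h)
        have h2 : φN s = 0 := φN_zero s fun c hc => (hCNC c hc).2 s hs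
        have h3 := ψZ_le s
        have hKle : K s ≤ K y := by
          rw [hK]
          show φN s + ψZ s ≤ φN y + ψZ y
          omega
        by_cases hts : Top s
        · refine gC s y hKle ?_ ?_
          · rw [g1t s hts, g1t y hty]
          · rw [g2t s hts, g2t y hty]; exact lψ s hs y hsy
        · exact gB s y hKle (by rw [g1f s hts, g1t y hty]; norm_num)

end Pool.Agent.W300.RD.Pair
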